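import Mathlib
import Pool.Agent.H93.Sd3

namespace Pool.Agent.Results.MP_5efb50_an.BoundedExp

/-- Sidon sets of characters. -/
def Sidon {G : Type} [CommGroup G] [TopologicalSpace G] (Λ : Set (PontryaginDual G)) : Prop :=
  ∃ C : ℝ, ∀ (s : Finset (PontryaginDual G)) (a : PontryaginDual G → ℂ),
    (∀ γ ∈ s, γ ∈ Λ) → ∑ γ ∈ s, ‖a γ‖ ≤ C * ⨆ x : G, ‖∑ γ ∈ s, a γ * (γ x : ℂ)‖

/-- Quasi-independent sets of characters (the dual group is written multiplicatively). -/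
def QuasiIndep {G : Type} [CommGroup G] [TopologicalSpace G] [IsTopologicalGroup G]
    (Λ : Set (PontryaginDual G)) : Prop :=
  1 ∉ Λ ∧ ∀ (s : Finset (PontryaginDual G)) (ε : PontryaginDual G → ℤ), (∀ γ ∈ s, γ ∈ Λ) →
    (∀ γ ∈ s, ε γ = -1 ∨ ε γ = 0 ∨ ε γ = 1) → ∏ γ ∈ s, γ ^ ε γ = 1 → ∀ γ ∈ s, ε γ = 0

/-- In a dual group of bounded exponent every Sidon set avoiding the identity is a finite union
of quasi-independent sets. -/
theorem result (G : Type) [CommGroup G] [TopologicalSpace G] [IsTopologicalGroup G]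
    [CompactSpace G] [T2Space G] (N : ℕ) (hN : 0 < N) (hG : ∀ γ : PontryaginDual G, γ ^ N = 1)
    (Λ : Set (PontryaginDual G)) (h1 : 1 ∉ Λ) (hΛ : Sidon Λ) :
    ∃ (m : ℕ) (L : Fin m → Set (PontryaginDual G)), (∀ i, QuasiIndep (L i)) ∧ Λ = ⋃ i, L i := by
  classical
  obtain ⟨C, hC⟩ := hΛ
  obtain ⟨m, L, h2, h3⟩ := H93Sd.sidon_qi (A := Additive (PontryaginDual G)) (Ω := G)
    (γ := fun x t => (Additive.toMul x t : ℂ)) ⟨fun _ => rfl, fun _ _ _ => rfl,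
      fun x t => Circle.norm_coe _⟩ hN.ne' (fun x => hG x.toMul) (Λ := Λ) h1 (C := C)
    fun s a hs => hC s a hs
  refine ⟨m, L, fun i => ⟨fun h => h1 ?_, fun s ε hs hε hp => h2 i s ε hs hε hp⟩, h3⟩
  rw [h3]
  exact Set.mem_iUnion.2 ⟨i, h⟩

end Pool.Agent.Results.MP_5efb50_an.BoundedExp
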